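import Mathlib
import Pool.Agent.H293Z.MO.Final

set_option autoImplicit false

open Filter Topology

namespace Pool.Agent.Results.MP_a187e6_nt.AFastDecay

/-- There is an MO function whose partial sums are `o(x^(-1/2))`. -/
theorem result : ∃ f : ℕ → ℂ,
    f 1 = 1 ∧
    (∀ m n : ℕ, 0 < m → 0 < n → Nat.Coprime m n → f (m * n) = f m * f n) ∧
    Tendsto (fun N : ℕ => ∑ n ∈ Finset.Icc 1 N, f n) atTop (𝓝 0) ∧
    (∀ p : ℕ, p.Prime → ∃ b : ℂ, b ≠ 0 ∧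
      Tendsto (fun K : ℕ => ∑ k ∈ Finset.range K, f (p ^ k)) atTop (𝓝 b)) ∧
    (fun x : ℝ => ∑ n ∈ Finset.Icc 1 ⌊x⌋₊, f n) =o[atTop] (fun x : ℝ => x ^ (-(1 / 2) : ℝ)) := by
  obtain ⟨f, h1, h2, h3, h4⟩ := Pool.Agent.H293Z.MO.mo
  exact ⟨f, h1, h2, Pool.Agent.H293Z.MO.tendsto_of f h4, h3, Pool.Agent.H293Z.MO.littleO_of f h4⟩

end Pool.Agent.Results.MP_a187e6_nt.AFastDecay
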